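import Mathlib

/-!
Relations `A` of arity `n` on a base `E` (finite or infinite), intervals mod `A` in the sense
of local automorphisms, and compactible relations.

Main theorem: if `A` is compactible and `D` is an interval (mod `A`), then the complement of `D`
is a union of finitely many PAIRWISE DISJOINT intervals (mod `A`).
-/

set_option autoImplicit false

universe u

namespace Pool.Agent.Results.MP_a8ef43_co.DisjointComplements

open Set Classical

/-- A relation of arity `n` with base `E` is a set `A` of `n`-tuples of elements of `E`.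
For `X Y : Set E`, the bijection `f : X ≃ Y` is a local automorphism of `A` when it is an
isomorphism from the restriction of `A` to `X` onto the restriction of `A` to `Y`. -/
def IsLocalAutomorphism {E : Type u} {n : ℕ} (A : Set (Fin n → E)) {X Y : Set E}
    (f : X ≃ Y) : Prop :=
  ∀ t : Fin n → X, (fun i => (t i : E)) ∈ A ↔ (fun i => (f (t i) : E)) ∈ A

/-- The underlying map of `f ∪ id`: it is `f` on `X` and the identity elsewhere. -/
noncomputable def extendById {E : Type u} {X Y : Set E} (f : X ≃ Y) (x : E) : E :=
  if h : x ∈ X then (f ⟨x, h⟩ : E) else x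

/-- `D` is an interval (mod `A`): for every local automorphism `f : X → Y` of the restriction of
`A` to `D` (so `X, Y ⊆ D`), the map `f ∪ id_{E \ D}` (a bijection from `X ∪ (E \ D)` onto
`Y ∪ (E \ D)`) is a local automorphism of `A`. -/
def IsInterval {E : Type u} {n : ℕ} (A : Set (Fin n → E)) (D : Set E) : Prop :=
  ∀ (X Y : Set E) (f : X ≃ Y), X ⊆ D → Y ⊆ D → IsLocalAutomorphism A f →
    ∀ t : Fin n → E, (∀ i, t i ∈ X ∪ Dᶜ) → (t ∈ A ↔ (fun i => extendById f (t i)) ∈ A)

/-- `A` is compactible: the complement of every interval is a union of finitely many intervals. -/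
def IsCompactible {E : Type u} {n : ℕ} (A : Set (Fin n → E)) : Prop :=
  ∀ D : Set E, IsInterval A D →
    ∃ F : Finset (Set E), (∀ I ∈ F, IsInterval A I) ∧ ⋃₀ (F : Set (Set E)) = Dᶜ

/-- The total function equal to `g` on `X` and to the identity elsewhere. -/
noncomputable def glue {E : Type u} (X : Set E) (g : E → E) (x : E) : E :=
  if x ∈ X then g x else x

theorem glue_mem {E : Type u} {X : Set E} {g : E → E} {x : E} (h : x ∈ X) :
    glue X g x = g x := by simp [glue, h]

theorem glue_not_mem {E : Type u} {X : Set E} {g : E → E} {x : E} (h : x ∉ X) :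
    glue X g x = x := by simp [glue, h]

section Basic

variable {E : Type u} {n : ℕ} {A : Set (Fin n → E)}

/-- Use of the interval property with a total function. -/
theorem IsInterval.use {I : Set E} (hI : IsInterval A I) {X : Set E} {g : E → E}
    (hX : X ⊆ I) (hg : MapsTo g X I) (hinj : InjOn g X)
    (hiso : ∀ s : Fin n → E, (∀ i, s i ∈ X) → (s ∈ A ↔ (fun i => g (s i)) ∈ A))
    (t : Fin n → E) (ht : ∀ i, t i ∈ X ∪ Iᶜ) :
    t ∈ A ↔ (fun i => glue X g (t i)) ∈ A := by
  have key := hI X (g '' X) (Equiv.Set.imageOfInjOn g X hinj) hX (by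
    rintro _ ⟨x, hx, rfl⟩; exact hg hx) (by
    intro s
    have := hiso (fun i => (s i : E)) (fun i => (s i).2)
    simpa [Equiv.Set.imageOfInjOn] using this) t ht
  have heq : (fun i => extendById (Equiv.Set.imageOfInjOn g X hinj) (t i))
      = (fun i => glue X g (t i)) := by
    funext i
    by_cases h : t i ∈ X <;> simp [extendById, glue, h, Equiv.Set.imageOfInjOn]
  rwa [heq] at key

/-- To prove the interval property it is enough to work with total functions. -/
theorem IsInterval.mk' {I : Set E}
    (h : ∀ (X : Set E) (g : E → E), X ⊆ I → MapsTo g X I → InjOn g X →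
      (∀ s : Fin n → E, (∀ i, s i ∈ X) → (s ∈ A ↔ (fun i => g (s i)) ∈ A)) →
      ∀ t : Fin n → E, (∀ i, t i ∈ X ∪ Iᶜ) →
        (t ∈ A ↔ (fun i => glue X g (t i)) ∈ A)) :
    IsInterval A I := by
  intro X Y f hX hY hf t ht
  have key := h X (extendById f) hX (by
      intro x hx
      simp only [extendById, hx, dif_pos]
      exact hY (f ⟨x, hx⟩).2) (by
      intro x hx y hy hxy
      simp only [extendById, hx, hy, dif_pos] at hxy
      have := f.injective (Subtype.ext hxy)
      simpa using this) (by
      intro s hs
      have := hf (fun i => ⟨s i, hs i⟩)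
      simpa [extendById, hs] using this) t ht
  have heq : (fun i => glue X (extendById f) (t i))
      = (fun i => extendById f (t i)) := by
    funext i
    by_cases h : t i ∈ X <;> simp [extendById, glue, h]
  rwa [heq] at key

/-- The intersection of two intervals is an interval. -/
theorem IsInterval.inter {I J : Set E} (hI : IsInterval A I) (hJ : IsInterval A J) :
    IsInterval A (I ∩ J) := by
  apply IsInterval.mk'
  intro X g hX hg hinj hiso t ht
  -- `g ∪ id` on `X ∪ (I \ J)`
  set G : E → E := glue X g with hG
  have hXI : X ⊆ I := fun x hx => (hX hx).1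
  have hXJ : X ⊆ J := fun x hx => (hX hx).2
  have h1 := hI.use (X := X ∪ (I \ J)) (g := G) (by
      rintro x (hx | hx)
      · exact hXI hx
      · exact hx.1) (by
      rintro x (hx | hx)
      · rw [hG, glue_mem hx]; exact (hg hx).1
      · have : x ∉ X := fun h => hx.2 (hXJ h)
        rw [hG, glue_not_mem this]; exact hx.1) (by
      rintro x hx y hy hxy
      by_cases hxX : x ∈ X <;> by_cases hyX : y ∈ X
      · rw [hG, glue_mem hxX, glue_mem hyX] at hxy
        exact hinj hxX hyX hxy
      · rw [hG, glue_mem hxX, glue_not_mem hyX] at hxy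
        exfalso
        rcases hy with hy | hy
        · exact hyX hy
        · exact hy.2 (hxy ▸ (hg hxX).2)
      · rw [hG, glue_not_mem hxX, glue_mem hyX] at hxy
        exfalso
        rcases hx with hx | hx
        · exact hxX hx
        · exact hx.2 (hxy ▸ (hg hyX).2)
      · rwa [hG, glue_not_mem hxX, glue_not_mem hyX] at hxy) (by
      intro s hs
      exact hJ.use hXJ (fun x hx => (hg hx).2) hinj hiso s (fun i => by
        rcases hs i with h | h
        · exact Or.inl h
        · exact Or.inr h.2)) t (fun i => by
      rcases ht i with h | h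
      · exact Or.inl (Or.inl h)
      · by_cases hi : t i ∈ I
        · exact Or.inl (Or.inr ⟨hi, fun hj => h ⟨hi, hj⟩⟩)
        · exact Or.inr hi)
  have heq : (fun i => glue (X ∪ (I \ J)) G (t i))
      = (fun i => glue X g (t i)) := by
    funext i
    by_cases h : t i ∈ X
    · rw [glue_mem (show t i ∈ X ∪ (I \ J) from Or.inl h)]
    · by_cases h' : t i ∈ I \ J
      · rw [glue_mem (show t i ∈ X ∪ (I \ J) from Or.inr h')]
      · rw [glue_not_mem (by rintro (h2 | h2); exacts [h h2, h' h2]), glue_not_mem h]
  rwa [heq] at h1

end Basic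

section Types

variable {E : Type u} {n : ℕ}

/-- The isomorphism type of an `n`-tuple `z` (repetitions allowed): which `n`-tuples of its
entries are in `A`, and which of its entries are equal. -/
def tupleType (A : Set (Fin n → E)) (z : Fin n → E) :
    Set (Fin n → Fin n) × Set (Fin n × Fin n) :=
  ({p | (fun i => z (p i)) ∈ A}, {q | z q.1 = z q.2})

/-- The types of `n`-tuples in `S`. -/
def types (A : Set (Fin n → E)) (S : Set E) : Set (Set (Fin n → Fin n) × Set (Fin n × Fin n)) :=
  {τ | ∃ z : Fin n → E, (∀ i, z i ∈ S) ∧ tupleType A z = τ}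

variable {A : Set (Fin n → E)}

theorem types_mono {S T : Set E} (h : S ⊆ T) : types A S ⊆ types A T := by
  rintro _ ⟨z, hz, rfl⟩
  exact ⟨z, fun i => h (hz i), rfl⟩

/-- Key lemma. -/
theorem IsInterval.diff_of_types {I J : Set E} (hI : IsInterval A I) (hJ : IsInterval A J)
    (h : types A (I ∩ J) ⊆ types A (J \ I)) : IsInterval A (I \ J) := by
  apply IsInterval.mk'
  intro X g hX hg hinj hiso t ht
  have hXI : X ⊆ I := fun x hx => (hX hx).1
  have hXJ : ∀ x ∈ X, x ∉ J := fun x hx => (hX hx).2
  by_cases hex : ∃ j, t j ∈ I ∩ J
  · obtain ⟨j0, hj0⟩ := hex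
    -- the tuple of entries of `t` in `I ∩ J`
    set z : Fin n → E := fun i => if t i ∈ I ∩ J then t i else t j0 with hz
    have hzmem : ∀ i, z i ∈ I ∩ J := by
      intro i
      by_cases hi : t i ∈ I ∩ J
      · simp only [hz, hi, if_pos]
      · simp only [hz, hi, if_neg, not_false_eq_true]; exact hj0
    obtain ⟨z', hz'mem, hz'⟩ := h ⟨z, hzmem, rfl⟩
    have hA' : ∀ p : Fin n → Fin n, ((fun i => z (p i)) ∈ A ↔ (fun i => z' (p i)) ∈ A) := by
      intro p
      have := congrArg Prod.fst hz'
      have := congrArg (fun S => p ∈ S) this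
      simp only [tupleType, Set.mem_ofPred_eq, eq_iff_iff] at this
      exact this.symm
    have hE' : ∀ a b : Fin n, z a = z b ↔ z' a = z' b := by
      intro a b
      have := congrArg Prod.snd hz'
      have := congrArg (fun S => (a, b) ∈ S) this
      simp only [tupleType, Set.mem_ofPred_eq, eq_iff_iff] at this
      exact this.symm
    -- the set of entries and the map `z i ↦ z' i`
    set Z : Set E := range z with hZ
    set H : E → E := fun x => if hx : x ∈ Z then z' (Classical.choose hx) else x with hH
    have hHz : ∀ i, H (z i) = z' i := by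
      intro i
      have hx : z i ∈ Z := ⟨i, rfl⟩
      simp only [hH, hx, dif_pos]
      exact (hE' _ _).1 (Classical.choose_spec hx)
    have hZI : ∀ x ∈ Z, x ∈ I := by rintro _ ⟨i, rfl⟩; exact (hzmem i).1
    have hZJ : ∀ x ∈ Z, x ∈ J := by rintro _ ⟨i, rfl⟩; exact (hzmem i).2
    have hHZ : ∀ x ∈ Z, H x ∈ J \ I := by rintro _ ⟨i, rfl⟩; rw [hHz]; exact hz'mem i
    have hHinj : InjOn H Z := by
      rintro _ ⟨i, rfl⟩ _ ⟨j, rfl⟩ hij
      rw [hHz, hHz] at hij
      exact (hE' _ _).2 hij
    have hHiso : ∀ s : Fin n → E, (∀ i, s i ∈ Z) → (s ∈ A ↔ (fun i => H (s i)) ∈ A) := by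
      intro s hs
      choose p hp using hs
      have e1 : s = fun i => z (p i) := funext fun i => (hp i).symm
      rw [e1]
      simp only [hHz]
      exact hA' p
    have useJ : ∀ s : Fin n → E, (∀ i, s i ∈ Z ∪ Jᶜ) →
        (s ∈ A ↔ (fun i => glue Z H (s i)) ∈ A) := fun s hs =>
      hJ.use (fun x hx => hZJ x hx) (fun x hx => (hHZ x hx).1) hHinj hHiso s hs
    -- `g ∪ id` on `X ∪ Z`
    set G : E → E := glue X g with hG
    have hGX : ∀ x ∈ X, G x = g x := fun x hx => glue_mem hx
    have hGZ : ∀ x ∈ Z, G x = x := fun x hx => by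
      have : x ∉ X := fun h' => hXJ x h' (hZJ x hx)
      exact glue_not_mem this
    have h1 := hI.use (X := X ∪ Z) (g := G) (by
        rintro x (hx | hx)
        · exact hXI hx
        · exact hZI x hx) (by
        rintro x (hx | hx)
        · rw [hGX x hx]; exact (hg hx).1
        · rw [hGZ x hx]; exact hZI x hx) (by
        rintro x (hx | hx) y (hy | hy) hxy
        · rw [hGX x hx, hGX y hy] at hxy; exact hinj hx hy hxy
        · rw [hGX x hx, hGZ y hy] at hxy
          exact absurd (hZJ y hy) (hxy ▸ (hg hx).2)
        · rw [hGZ x hx, hGX y hy] at hxy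
          exact absurd (hZJ x hx) (hxy ▸ (hg hy).2)
        · rw [hGZ x hx, hGZ y hy] at hxy; exact hxy) (by
        intro s hs
        -- step 1: move the entries in `Z` into `J \ I`
        have st1 := useJ s (fun i => by
          rcases hs i with h' | h'
          · exact Or.inr (hXJ _ h')
          · exact Or.inl h')
        -- step 2: apply `g` on the entries in `X`
        have st2 := hI.use hXI (fun x hx => (hg hx).1) hinj hiso
          (fun i => glue Z H (s i)) (fun i => by
            by_cases h' : s i ∈ Z
            · rw [glue_mem h']; exact Or.inr (hHZ _ h').2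
            · rw [glue_not_mem h']
              rcases hs i with h'' | h''
              · exact Or.inl h''
              · exact absurd h'' h')
        -- step 3: move back
        have st3 := useJ (fun i => G (s i)) (fun i => by
          rcases hs i with h' | h'
          · rw [hGX _ h']; exact Or.inr (hg h').2
          · rw [hGZ _ h']; exact Or.inl h')
        have heq : (fun i => glue X g (glue Z H (s i))) = (fun i => glue Z H (G (s i))) := by
          funext i
          by_cases hz1 : s i ∈ Z
          · have hn : H (s i) ∉ X := fun h' => (hHZ _ hz1).2 (hXI h')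
            rw [glue_mem hz1, glue_not_mem hn, hGZ _ hz1, glue_mem hz1]
          · have hx1 : s i ∈ X := by
              rcases hs i with h'' | h''
              · exact h''
              · exact absurd h'' hz1
            have hn : g (s i) ∉ Z := fun h' => (hg hx1).2 (hZJ _ h')
            rw [glue_not_mem hz1, glue_mem hx1, hGX _ hx1, glue_not_mem hn]
        rw [st1, st2, heq, ← st3]) t (fun i => by
        rcases ht i with h' | h'
        · exact Or.inl (Or.inl h')
        · by_cases hi : t i ∈ I
          · by_cases hj : t i ∈ J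
            · left; right
              exact ⟨i, by simp only [hz, if_pos (show t i ∈ I ∩ J from ⟨hi, hj⟩)]⟩
            · exact absurd ⟨hi, hj⟩ h'
          · exact Or.inr hi)
    have heq : (fun i => glue (X ∪ Z) G (t i))
        = (fun i => glue X g (t i)) := by
      funext i
      by_cases hx : t i ∈ X
      · rw [glue_mem (show t i ∈ X ∪ Z from Or.inl hx)]
      · by_cases h' : t i ∈ Z
        · rw [glue_mem (show t i ∈ X ∪ Z from Or.inr h')]
        · rw [glue_not_mem (by rintro (h2 | h2); exacts [hx h2, h' h2]), glue_not_mem hx]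
    rwa [heq] at h1
  · push Not at hex
    exact hI.use hXI (fun x hx => (hg hx).1) hinj hiso t (fun i => by
      rcases ht i with h' | h'
      · exact Or.inl h'
      · right
        intro hi
        by_cases hj : t i ∈ J
        · exact hex i ⟨hi, hj⟩
        · exact h' ⟨hi, hj⟩)

end Types

section Unions

variable {E : Type u} {n : ℕ}

/-- Finite unions of intervals. -/
def FinUnion (A : Set (Fin n → E)) (S : Set E) : Prop :=
  ∃ F : Finset (Set E), (∀ I ∈ F, IsInterval A I) ∧ ⋃₀ (F : Set (Set E)) = S

/-- Finite disjoint unions of intervals, built one at a time. -/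
inductive FinDisj (A : Set (Fin n → E)) : Set E → Prop
  | empty : FinDisj A ∅
  | add (I S : Set E) : IsInterval A I → FinDisj A S → Disjoint I S → FinDisj A (I ∪ S)

variable {A : Set (Fin n → E)}

theorem FinDisj.union {S T : Set E} (hS : FinDisj A S) (hT : FinDisj A T)
    (h : Disjoint S T) : FinDisj A (S ∪ T) := by
  induction hS with
  | empty => simpa using hT
  | add I S hI _ hd ih =>
    rw [Set.union_assoc]
    rw [Set.disjoint_union_left] at h
    exact FinDisj.add I _ hI (ih h.2) (Set.disjoint_union_right.2 ⟨hd, h.1⟩)

theorem FinDisj.toFinset {S : Set E} (hS : FinDisj A S) :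
    ∃ F : Finset (Set E), (∀ I ∈ F, IsInterval A I) ∧
      (F : Set (Set E)).PairwiseDisjoint id ∧ ⋃₀ (F : Set (Set E)) = S := by
  induction hS with
  | empty => exact ⟨∅, by simp, by simp, by simp⟩
  | add I S hI _ hd ih =>
    obtain ⟨F, hF, hFd, hFS⟩ := ih
    refine ⟨insert I F, ?_, ?_, ?_⟩
    · intro J hJ
      rcases Finset.mem_insert.1 hJ with rfl | hJ
      · exact hI
      · exact hF J hJ
    · rw [Finset.coe_insert]
      refine hFd.insert ?_
      intro J hJ _
      have : J ⊆ S := by rw [← hFS]; exact Set.subset_sUnion_of_mem hJ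
      exact hd.mono_right this
    · rw [Finset.coe_insert, Set.sUnion_insert, hFS]

theorem finUnion_diff (hA : IsCompactible A) {I J : Set E} (hI : IsInterval A I)
    (hJ : IsInterval A J) : FinUnion A (J \ I) := by
  obtain ⟨F, hF, hFI⟩ := hA I hI
  refine ⟨F.image (fun W => J ∩ W), ?_, ?_⟩
  · intro W hW
    obtain ⟨W', hW', rfl⟩ := Finset.mem_image.1 hW
    exact hJ.inter (hF W' hW')
  · ext x
    simp only [Finset.coe_image, Set.sUnion_image, Set.mem_iUnion, Set.mem_inter_iff,
      Finset.mem_coe, Set.mem_sdiff]
    constructor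
    · rintro ⟨W, hW, hxJ, hxW⟩
      refine ⟨hxJ, ?_⟩
      have : x ∈ ⋃₀ (F : Set (Set E)) := ⟨W, hW, hxW⟩
      rw [hFI] at this
      exact this
    · rintro ⟨hxJ, hxI⟩
      have : x ∈ ⋃₀ (F : Set (Set E)) := by rw [hFI]; exact hxI
      obtain ⟨W, hW, hxW⟩ := this
      exact ⟨W, hW, hxJ, hxW⟩

/-- The main induction. -/
theorem finDisj_of_finUnion (hA : IsCompactible A) :
    ∀ (m : ℕ) (S : Set E), (types A S).ncard = m → FinUnion A S → FinDisj A S := by
  intro m
  induction m using Nat.strong_induction_on with
  | _ m IH =>
    intro S0 hm hS0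
    -- dichotomy
    have dich : ∀ I J : Set E, IsInterval A I → IsInterval A J → I ⊆ S0 → J ⊆ S0 →
        IsInterval A (I \ J) ∨ FinDisj A (J \ I) := by
      intro I J hI hJ hIS hJS
      by_cases h : types A (I ∩ J) ⊆ types A (J \ I)
      · exact Or.inl (hI.diff_of_types hJ h)
      · right
        have hss : types A (J \ I) ⊂ types A S0 := by
          refine ⟨types_mono (fun x hx => hJS hx.1), fun hcon => h ?_⟩
          exact (types_mono (fun x hx => hIS hx.1)).trans hcon
        have hlt : (types A (J \ I)).ncard < m := by
          rw [← hm]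
          exact Set.ncard_lt_ncard hss (Set.toFinite _)
        exact IH _ hlt _ rfl (finUnion_diff hA hI hJ)
    -- adding one interval to a finite disjoint union
    have addOne : ∀ S : Set E, FinDisj A S → S ⊆ S0 → ∀ I : Set E, IsInterval A I → I ⊆ S0 →
        FinDisj A (I ∪ S) := by
      intro S hS
      induction hS with
      | empty =>
        intro _ I hI _
        exact FinDisj.add I ∅ hI FinDisj.empty (Set.disjoint_empty _)
      | add J S hJ hS hd ih =>
        intro hJS I hI hIS
        have hJ0 : J ⊆ S0 := fun x hx => hJS (Or.inl hx)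
        have hS0' : S ⊆ S0 := fun x hx => hJS (Or.inr hx)
        rcases dich I J hI hJ hIS hJ0 with h | h
        · have h1 := ih hS0' (I \ J) h (fun x hx => hIS hx.1)
          have h2 := FinDisj.add J _ hJ h1 (Set.disjoint_union_right.2
            ⟨Set.disjoint_sdiff_right, hd⟩)
          have heq : J ∪ ((I \ J) ∪ S) = I ∪ (J ∪ S) := by
            ext x
            simp only [Set.mem_union, Set.mem_sdiff]
            tauto
          rwa [heq] at h2
        · have h1 := ih hS0' I hI hIS
          have h2 := h.union h1 (Set.disjoint_union_right.2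
            ⟨Set.disjoint_sdiff_left, hd.mono_left Set.sdiff_subset⟩)
          have heq : (J \ I) ∪ (I ∪ S) = I ∪ (J ∪ S) := by
            ext x
            simp only [Set.mem_union, Set.mem_sdiff]
            tauto
          rwa [heq] at h2
    obtain ⟨F, hF, hFS⟩ := hS0
    have main : ∀ G : Finset (Set E), G ⊆ F → FinDisj A (⋃₀ (G : Set (Set E))) := by
      intro G
      induction G using Finset.induction_on with
      | empty => intro _; simpa using FinDisj.empty
      | insert I G _ ih =>
        intro hG
        have hGF : G ⊆ F := fun x hx => hG (Finset.mem_insert_of_mem hx)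
        have hIF : I ∈ F := hG (Finset.mem_insert_self _ _)
        rw [Finset.coe_insert, Set.sUnion_insert]
        refine addOne _ (ih hGF) ?_ I (hF I hIF) ?_
        · rw [← hFS]; exact Set.sUnion_subset_sUnion (Finset.coe_subset.2 hGF)
        · rw [← hFS]; exact Set.subset_sUnion_of_mem hIF
    rw [← hFS]
    exact main F (Finset.Subset.refl _)

end Unions

/-- For every relation `A` (of any finite arity `n`, on any finite or infinite base `E`): if `A`
is compactible and `D` is an interval (mod `A`), then `E \ D` is a union of finitely many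
pairwise disjoint intervals (mod `A`). -/
theorem result {E : Type u} {n : ℕ} (A : Set (Fin n → E)) (hA : IsCompactible A)
    (D : Set E) (hD : IsInterval A D) :
    ∃ F : Finset (Set E), (∀ I ∈ F, IsInterval A I) ∧
      (F : Set (Set E)).PairwiseDisjoint id ∧ ⋃₀ (F : Set (Set E)) = Dᶜ :=
  (finDisj_of_finUnion hA _ _ rfl (hA D hD)).toFinset

end Pool.Agent.Results.MP_a8ef43_co.DisjointComplements
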